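import Pool.Agent.N549.HG.Stm

/-!
# HG/OSC: exponential decay of `In n t` for `t ≥ n / 2` (contour shift)
-/

set_option autoImplicit false

namespace Pool.Agent.N887.HG.Osc

open MeasureTheory Set Finset Pool.Agent.N549.HG
open Complex (I)

/-- The entire function. -/
noncomputable def g (n : ℕ) (t : ℝ) (w : ℂ) : ℂ :=
  Complex.exp (I * t * Complex.sin w) * Complex.cos w ^ n

lemma g_diff (n : ℕ) (t : ℝ) : Differentiable ℂ (g n t) := by
  unfold g
  fun_prop

lemma norm_g (n : ℕ) (t x y : ℝ) :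
    ‖g n t (x + y * I)‖ = Real.exp (-(t * (Real.cos x * Real.sinh y))) *
      Real.sqrt (Real.cos x ^ 2 + Real.sinh y ^ 2) ^ n := by
  unfold g
  rw [norm_mul, norm_pow, Complex.norm_exp, Complex.sin_add_mul_I, Complex.cos_add_mul_I]
  congr 1
  · congr 1
    rw [← Complex.ofReal_sin, ← Complex.ofReal_cos, ← Complex.ofReal_cosh, ← Complex.ofReal_sinh]
    simp only [Complex.mul_re, Complex.mul_im, Complex.add_re, Complex.add_im, Complex.I_re,
      Complex.I_im, Complex.ofReal_re, Complex.ofReal_im]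
    ring
  · congr 1
    rw [← Complex.ofReal_sin, ← Complex.ofReal_cos, ← Complex.ofReal_cosh, ← Complex.ofReal_sinh]
    rw [Complex.norm_eq_sqrt_sq_add_sq]
    congr 1
    simp only [Complex.mul_re, Complex.mul_im, Complex.sub_re, Complex.sub_im, Complex.I_re,
      Complex.I_im, Complex.ofReal_re, Complex.ofReal_im]
    have h1 := Real.cosh_sq y
    have h2 := Real.sin_sq_add_cos_sq x
    have e : (Real.cos x * Real.cosh y - 0 * 0 -
        ((Real.sin x * Real.sinh y - 0 * 0) * 0 - (Real.sin x * 0 + 0 * Real.sinh y) * 1)) ^ 2 +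
        (Real.cos x * 0 + 0 * Real.cosh y -
        ((Real.sin x * Real.sinh y - 0 * 0) * 1 + (Real.sin x * 0 + 0 * Real.sinh y) * 0)) ^ 2 =
        Real.cos x ^ 2 * Real.cosh y ^ 2 + Real.sin x ^ 2 * Real.sinh y ^ 2 := by ring
    rw [e, h1]
    have h3 : Real.sin x ^ 2 = 1 - Real.cos x ^ 2 := by linarith
    rw [h3]; ring

lemma exp_three : Real.exp (3 / 10) ≤ 27 / 20 := by
  have h := Real.exp_bound' (x := 3 / 10) (by norm_num) (by norm_num) (n := 5) (by norm_num)
  refine h.trans ?_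
  simp only [Finset.sum_range_succ, Finset.sum_range_zero, Nat.factorial]
  norm_num

lemma key (c : ℝ) (h0 : 0 ≤ c) (h1 : c ≤ 1) :
    (c ^ 2 + (6 / 7) ^ 2) * Real.exp (3 / 10) ≤ Real.exp (c * (6 / 7)) := by
  have h := Real.sum_le_exp_of_nonneg (x := c * (6 / 7)) (by positivity) 5
  refine le_trans ?_ h
  simp only [Finset.sum_range_succ, Finset.sum_range_zero, Nat.factorial]
  have h3 := exp_three
  have h4 : (c ^ 2 + (6 / 7) ^ 2) * Real.exp (3 / 10) ≤ (c ^ 2 + (6 / 7) ^ 2) * (27 / 20) :=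
    mul_le_mul_of_nonneg_left h3 (by positivity)
  refine h4.trans ?_
  push_cast
  have h5 : 0 ≤ c * (1 - c) := mul_nonneg h0 (by linarith)
  have h6 : 0 ≤ c * (1 - c) * (1 - c) := mul_nonneg h5 (by linarith)
  have h7 : 0 ≤ c * (1 - c) * (1 - c ^ 2) := mul_nonneg h5 (by nlinarith)
  nlinarith [h5, h6, h7, pow_nonneg h0 3, pow_nonneg h0 4]

/-- the pointwise bound -/
lemma bound (n : ℕ) (t c s : ℝ) (ht : (n : ℝ) / 2 ≤ t) (hc : 0 ≤ c) (hs : 0 ≤ s)
    (h : (c ^ 2 + s ^ 2) * Real.exp (3 / 10) ≤ Real.exp (c * s)) :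
    Real.exp (-(t * (c * s))) * Real.sqrt (c ^ 2 + s ^ 2) ^ n ≤ Real.exp (-(3 / 20) * n) := by
  have hcs : 0 ≤ c * s := mul_nonneg hc hs
  have e1 : Real.exp (-(t * (c * s))) ≤ Real.exp (-(c * s) / 2) ^ n := by
    rw [← Real.exp_nat_mul]
    apply Real.exp_le_exp.mpr
    nlinarith
  have e2 : Real.sqrt (c ^ 2 + s ^ 2) ≤ Real.exp (c * s / 2 - 3 / 20) := by
    apply Real.sqrt_le_iff.mpr
    refine ⟨(Real.exp_pos _).le, ?_⟩
    rw [← Real.exp_nat_mul]
    have e : ((2 : ℕ) : ℝ) * (c * s / 2 - 3 / 20) = c * s - 3 / 10 := by push_cast; ring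
    rw [e, Real.exp_sub, le_div_iff₀ (Real.exp_pos _)]
    exact h
  calc Real.exp (-(t * (c * s))) * Real.sqrt (c ^ 2 + s ^ 2) ^ n
      ≤ Real.exp (-(c * s) / 2) ^ n * Real.exp (c * s / 2 - 3 / 20) ^ n := by
        apply mul_le_mul e1 _ (by positivity) (by positivity)
        exact pow_le_pow_left₀ (Real.sqrt_nonneg _) e2 n
    _ = Real.exp (-(3 / 20) * n) := by
        rw [← mul_pow, ← Real.exp_add, ← Real.exp_nat_mul]
        congr 1
        ring

theorem osc : S_OSC := by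
  intro n t ht
  set η : ℝ := Real.arsinh (6 / 7) with hη
  have hsη : Real.sinh η = 6 / 7 := Real.sinh_arsinh _
  have hη0 : 0 ≤ η := by
    rw [hη]; exact Real.arsinh_nonneg_iff.mpr (by norm_num)
  have hη1 : η ≤ 1 := by
    have := Real.self_le_sinh_iff.mpr hη0
    rw [hsη] at this
    linarith
  set E : ℝ := Real.exp (-(3 / 20) * n) with hE
  have hE0 : 0 < E := Real.exp_pos _
  have hpi := Real.pi_pos
  -- the Cauchy identity
  have hC := Complex.integral_boundary_rect_eq_zero_of_differentiableOn (g n t)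
    (⟨-(Real.pi / 2), 0⟩ : ℂ) (⟨Real.pi / 2, η⟩ : ℂ) (g_diff n t).differentiableOn
  simp only at hC
  -- the bounds
  have hside : ∀ x : ℝ, Real.cos x = 0 → ∀ y ∈ Set.uIoc 0 η, ‖g n t ((x : ℂ) + y * I)‖ ≤ E := by
    intro x hx y hy
    rw [Set.uIoc_of_le hη0] at hy
    rw [norm_g]
    have hs0 : 0 ≤ Real.sinh y := Real.sinh_nonneg_iff.mpr hy.1.le
    have hs1 : Real.sinh y ≤ 6 / 7 := by
      rw [← hsη]; exact Real.sinh_le_sinh.mpr hy.2
    apply bound n t _ _ ht (by rw [hx]) hs0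
    have hk := key 0 le_rfl (by norm_num)
    rw [hx]
    refine le_trans ?_ (hk.trans (by simp))
    apply mul_le_mul_of_nonneg_right _ (Real.exp_pos _).le
    have : Real.sinh y ^ 2 ≤ (6 / 7) ^ 2 := pow_le_pow_left₀ hs0 hs1 2
    linarith
  have hs1 := intervalIntegral.norm_integral_le_of_norm_le_const
    (hside (Real.pi / 2) Real.cos_pi_div_two)
  have hs2 := intervalIntegral.norm_integral_le_of_norm_le_const
    (hside (-(Real.pi / 2)) (by rw [Real.cos_neg, Real.cos_pi_div_two]))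
  have htop : ‖∫ x in (-(Real.pi / 2))..(Real.pi / 2), g n t ((x : ℂ) + η * I)‖ ≤
      E * |Real.pi / 2 - -(Real.pi / 2)| := by
    apply intervalIntegral.norm_integral_le_of_norm_le_const
    intro x hx
    rw [Set.uIoc_of_le (by linarith)] at hx
    have hc0 : 0 ≤ Real.cos x := Real.cos_nonneg_of_mem_Icc ⟨hx.1.le, hx.2⟩
    rw [norm_g, hsη]
    exact bound n t _ _ ht hc0 (by norm_num) (key _ hc0 (Real.cos_le_one x))
  have hηabs : |η - 0| = η := by rw [sub_zero, abs_of_nonneg hη0]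
  have hpiabs : |Real.pi / 2 - -(Real.pi / 2)| = Real.pi := by
    rw [abs_of_nonneg (by linarith)]; ring
  rw [hηabs] at hs1 hs2
  rw [hpiabs] at htop
  -- the integral
  have hre : In n t = (∫ x in (-(Real.pi / 2))..(Real.pi / 2), g n t (x : ℂ)).re := by
    have hcont : Continuous fun x : ℝ => g n t (x : ℂ) :=
      (g_diff n t).continuous.comp Complex.continuous_ofReal
    have := ContinuousLinearMap.intervalIntegral_comp_comm Complex.reCLM
      (hcont.intervalIntegrable (μ := volume) (-(Real.pi / 2)) (Real.pi / 2))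
    rw [Complex.reCLM_apply] at this
    rw [← this]
    unfold In
    congr 1
    ext x
    rw [Complex.reCLM_apply]
    unfold g
    rw [← Complex.ofReal_sin, ← Complex.ofReal_cos]
    have e : I * (t : ℂ) * ((Real.sin x : ℝ) : ℂ) = ((t * Real.sin x : ℝ) : ℂ) * I := by
      push_cast; ring
    rw [e, Complex.exp_mul_I, ← Complex.ofReal_sin, ← Complex.ofReal_cos, ← Complex.ofReal_pow,
      Complex.re_mul_ofReal, Complex.add_re, Complex.mul_I_re, Complex.ofReal_re,
      Complex.ofReal_im, neg_zero, add_zero]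
  have hbot : (∫ x in (-(Real.pi / 2))..(Real.pi / 2), g n t (x : ℂ)) =
      (∫ x in (-(Real.pi / 2))..(Real.pi / 2), g n t ((x : ℂ) + η * I)) -
      I • (∫ y in (0 : ℝ)..η, g n t (((Real.pi / 2 : ℝ) : ℂ) + y * I)) +
      I • (∫ y in (0 : ℝ)..η, g n t (((-(Real.pi / 2) : ℝ) : ℂ) + y * I)) := by
    have e : ∀ x : ℝ, (x : ℂ) + ((0 : ℝ) : ℂ) * I = (x : ℂ) := by intro x; simp
    simp only [e] at hC
    linear_combination hC
  rw [hre]
  refine (Complex.abs_re_le_norm _).trans ?_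
  rw [hbot]
  refine (norm_add_le _ _).trans ?_
  have h1 := norm_sub_le (∫ x in (-(Real.pi / 2))..(Real.pi / 2), g n t ((x : ℂ) + η * I))
    (I • (∫ y in (0 : ℝ)..η, g n t (((Real.pi / 2 : ℝ) : ℂ) + y * I)))
  rw [norm_smul, Complex.norm_I, one_mul] at h1
  rw [norm_smul I, Complex.norm_I, one_mul]
  nlinarith

end Pool.Agent.N887.HG.Osc

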